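import Pool.Graph.R_seed8.R355.ConeAct
import Pool.Graph.R_seed8.Chud.PD1
import Pool.Agent.Results.MP_3285df_ag.StrictlyPositive

set_option autoImplicit false

/-!
# The orbit of the rational ray `111 H - 36 E i - 35 ∑ E j` on very general blow-ups of the plane
-/

namespace Pool.Agent.KS6_77.RR

open MvPolynomial Pool.Agent.R355.ConeAct
open Pool.Agent.TH167 (SHDefs.Curve SHDefs.MinusOne SHDefs.pt SHDefs.sys)
open Pool.Agent.W609.CR (Van Ord aff)
open Pool.Agent.TH167.SH (van_le van_zero van_of_mul exists_fam curve_iff)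

/-- The class `111 H - 36 E i - 35 ∑_{j ∈ T, j ≠ i} E j`. -/
def ray {n : ℕ} (T : Finset (Fin n)) (i : Fin n) : ℝ × (Fin n → ℝ) :=
  (111, fun l => if l ∈ T then (if l = i then 36 else 35) else 0)

theorem ray_sum {n : ℕ} {T : Finset (Fin n)} {i : Fin n} (hi : i ∈ T) (x : Fin n → ℝ) :
    ∑ l, (ray T i).2 l * x l = 35 * ∑ l ∈ T, x l + x i := by
  classical
  have h1 : ∀ l, (ray T i).2 l * x l = (if l ∈ T then 35 * x l else 0) +
      if l = i then x i else 0 := by
    intro l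
    show (if l ∈ T then (if l = i then (36 : ℝ) else 35) else 0) * x l = _
    by_cases h : l ∈ T
    · by_cases h' : l = i
      · subst h'
        simp only [if_pos h, if_true]
        ring
      · simp only [if_pos h, if_neg h']
        ring
    · have h' : l ≠ i := fun h2 => h (h2 ▸ hi)
      simp only [if_neg h, if_neg h']
      ring
  rw [Finset.sum_congr rfl fun l _ => h1 l, Finset.sum_add_distrib, Finset.sum_ite_mem,
    Finset.univ_inter, ← Finset.mul_sum, Finset.sum_ite_eq' Finset.univ]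
  simp

theorem ray_self {n : ℕ} {T : Finset (Fin n)} {i : Fin n} (hT : T.card = 10) (hi : i ∈ T) :
    dot (ray T i) (ray T i) = 0 := by
  unfold dot
  rw [ray_sum hi]
  have h1 : ∑ l ∈ T, (ray T i).2 l = 351 := by
    rw [← Finset.add_sum_erase _ _ hi]
    have h2 : ∑ l ∈ T.erase i, (ray T i).2 l = ∑ l ∈ T.erase i, (35 : ℝ) := by
      refine Finset.sum_congr rfl fun l hl => ?_
      show (if l ∈ T then (if l = i then (36 : ℝ) else 35) else 0) = 35
      rw [if_pos (Finset.mem_of_mem_erase hl), if_neg (Finset.ne_of_mem_erase hl)]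
    rw [h2, Finset.sum_const, Finset.card_erase_of_mem hi, hT]
    show (if i ∈ T then (if i = i then (36 : ℝ) else 35) else 0) + _ = _
    rw [if_pos hi, if_pos rfl]
    norm_num
  have h3 : (ray T i).2 i = 36 := by
    show (if i ∈ T then (if i = i then (36 : ℝ) else 35) else 0) = 36
    rw [if_pos hi, if_pos rfl]
  rw [h1, h3]
  show (111 : ℝ) * 111 - _ = 0
  norm_num

theorem ray_kap {n : ℕ} {T : Finset (Fin n)} {i : Fin n} (hT : T.card = 10) (hi : i ∈ T) :
    kap (ray T i) = 18 := by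
  unfold kap
  have h := ray_sum (T := T) hi (fun _ => (1 : ℝ))
  simp only [mul_one] at h
  rw [h, Finset.sum_const, hT]
  show -3 * (111 : ℝ) + _ = 18
  norm_num

theorem ray_int {n : ℕ} (T : Finset (Fin n)) (i : Fin n) : IsInt (ray T i) := by
  refine ⟨111, fun l => if l ∈ T then (if l = i then 36 else 35) else 0, by norm_num [ray],
    fun l => ?_⟩
  show (if l ∈ T then (if l = i then (36 : ℝ) else 35) else 0) =
    ((if l ∈ T then (if l = i then 36 else 35) else 0 : ℤ) : ℝ)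
  split_ifs <;> norm_num

/-- The inequality at the generic points of `T`. -/
theorem form_lt {n : ℕ} {P : Fin n → Fin 2 → ℂ}
    (hP : AlgebraicIndependent ℚ (fun ij : Fin n × Fin 2 => P ij.1 ij.2)) {T : Finset (Fin n)}
    (hT : T.card = 10) {i : Fin n} (hi : i ∈ T) {F : MvPolynomial (Fin 3) ℂ} {d : ℕ}
    (hd : 0 < d) (hF : F.IsHomogeneous d) (hF0 : F ≠ 0) {m : Fin n → ℕ}
    (hm : ∀ l ∈ T, F ∈ SHDefs.pt (P l) ^ m l) :
    35 * ∑ l ∈ T, m l + m i < 111 * d := by
  classical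
  obtain ⟨e, he⟩ : ∃ e : Fin 10 ≃ T, e = (finCongr hT.symm).trans T.equivFin.symm := ⟨_, rfl⟩
  have h1 : AlgebraicIndependent ℚ
      (Sum.elim (fun j : Fin 10 => P (e j) 0) (fun j : Fin 10 => P (e j) 1)) := by
    have h2 : (Sum.elim (fun j : Fin 10 => P (e j) 0) (fun j : Fin 10 => P (e j) 1)) =
        (fun ij : Fin n × Fin 2 => P ij.1 ij.2) ∘
          (Sum.elim (fun j : Fin 10 => ((e j : Fin n), (0 : Fin 2)))
            (fun j : Fin 10 => ((e j : Fin n), (1 : Fin 2)))) := by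
      funext x
      rcases x with x | x <;> rfl
    rw [h2]
    refine hP.comp _ ?_
    rintro (a | a) (b | b) h
    · simp only [Sum.elim_inl, Prod.mk.injEq] at h
      exact congrArg Sum.inl (e.injective (Subtype.ext h.1))
    · simp only [Sum.elim_inl, Sum.elim_inr, Prod.mk.injEq] at h
      exact absurd h.2 (by decide)
    · simp only [Sum.elim_inl, Sum.elim_inr, Prod.mk.injEq] at h
      exact absurd h.2 (by decide)
    · simp only [Sum.elim_inr, Prod.mk.injEq] at h
      exact congrArg Sum.inr (e.injective (Subtype.ext h.1))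
  have h3 := Pool.Agent.Results.MP_3285df_ag.StrictlyPositive.result _ _ (algInd_bot h1) d hd F hF
    hF0 (fun j => m (e j)) (fun j => hm _ (e j).2) (e.symm ⟨i, hi⟩)
  have h4 : ∑ j : Fin 10, m (e j) = ∑ l ∈ T, m l := by
    rw [← Finset.sum_coe_sort T (fun l => m l)]
    exact Equiv.sum_comp e fun l : T => m l
  rw [h4, Equiv.apply_symm_apply] at h3
  exact h3

theorem deg_pos {n : ℕ} {P : Fin n → Fin 2 → ℂ} {G : MvPolynomial (Fin 3) ℂ} {d : ℕ}
    {w : Fin n → ℕ} (hG : SHDefs.Curve P G d w) : 0 < d := by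
  rcases Nat.eq_zero_or_pos d with h | h
  · exfalso
    have h2 := hG.homogeneous.totalDegree hG.irreducible.ne_zero
    rw [h, MvPolynomial.totalDegree_eq_zero_iff_eq_C] at h2
    refine hG.irreducible.not_isUnit ?_
    rw [h2]
    refine (isUnit_iff_ne_zero.2 fun h3 => hG.irreducible.ne_zero ?_).map C
    rw [h2, h3, map_zero]
  · exact h

theorem ray_curve {n : ℕ} {P : Fin n → Fin 2 → ℂ}
    (hP : AlgebraicIndependent ℚ (fun ij : Fin n × Fin 2 => P ij.1 ij.2)) {T : Finset (Fin n)}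
    (hT : T.card = 10) {i : Fin n} (hi : i ∈ T) {x : ℝ × (Fin n → ℝ)} (hx : x ∈ curveClasses P) :
    0 < dot (ray T i) x ∨ (dot (ray T i) x = 0 ∧ dot x x = -1 ∧ kap x = -1 ∧ n ≠ 10) := by
  classical
  rcases hx with ⟨G, d, w, hG, rfl⟩ | ⟨j, rfl⟩
  · left
    have hd : 0 < d := deg_pos hG
    have h1 := form_lt hP hT hi hd hG.homogeneous hG.irreducible.ne_zero
      (m := w) (fun l _ => (hG.mult l).1)
    unfold dot
    rw [ray_sum hi]
    show 0 < (111 : ℝ) * (d : ℝ) - (35 * ∑ l ∈ T, (w l : ℝ) + (w i : ℝ))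
    have h2 : (35 * ∑ l ∈ T, (w l : ℝ) + (w i : ℝ)) < 111 * (d : ℝ) := by exact_mod_cast h1
    linarith
  · have h1 : dot (ray T i) ((0 : ℝ), (Pi.single j (-1 : ℝ) : Fin n → ℝ)) = (ray T i).2 j := by
      unfold dot
      simp only [mul_zero, zero_sub]
      rw [Finset.sum_eq_single j]
      · rw [Pi.single_eq_same]
        ring
      · intro l _ hl
        rw [Pi.single_eq_of_ne hl, mul_zero]
      · intro h
        exact absurd (Finset.mem_univ j) h
    have h2 : dot ((0 : ℝ), (Pi.single j (-1 : ℝ) : Fin n → ℝ))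
        ((0 : ℝ), (Pi.single j (-1 : ℝ) : Fin n → ℝ)) = -1 := by
      unfold dot
      simp only [mul_zero, zero_sub]
      rw [Finset.sum_eq_single j]
      · rw [Pi.single_eq_same]
        ring
      · intro l _ hl
        rw [Pi.single_eq_of_ne hl, mul_zero]
      · intro h
        exact absurd (Finset.mem_univ j) h
    have h3 : kap ((0 : ℝ), (Pi.single j (-1 : ℝ) : Fin n → ℝ)) = -1 := by
      unfold kap
      simp only [mul_zero, zero_add]
      rw [Finset.sum_pi_single']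
      simp
    rw [h1, h2, h3]
    show 0 < (if j ∈ T then (if j = i then (36 : ℝ) else 35) else 0) ∨
      ((if j ∈ T then (if j = i then (36 : ℝ) else 35) else 0) = 0 ∧ _)
    by_cases h : j ∈ T
    · left
      rw [if_pos h]
      split_ifs <;> norm_num
    · right
      rw [if_neg h]
      refine ⟨rfl, rfl, rfl, ?_⟩
      rintro rfl
      have h4 : T = Finset.univ := Finset.eq_univ_of_card T (by rw [hT, Fintype.card_fin])
      exact h (h4 ▸ Finset.mem_univ j)

/-- Positivity of all classes of the orbit. -/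
theorem orbit_curve {n : ℕ} {P : Fin n → Fin 2 → ℂ}
    (hP : AlgebraicIndependent ℚ (fun ij : Fin n × Fin 2 => P ij.1 ij.2)) {T : Finset (Fin n)}
    (hT : T.card = 10) {i : Fin n} (hi : i ∈ T) {D : ℝ × (Fin n → ℝ)} (hD : Carries (ray T i) D) :
    IsInt D ∧ dot D D = 0 ∧ kap D = 18 ∧ ∀ x ∈ curveClasses P,
      0 < dot D x ∨ (dot D x = 0 ∧ dot x x = -1 ∧ kap x = -1 ∧ n ≠ 10) := by
  unfold Carries at hD
  induction hD with
  | refl => exact ⟨ray_int T i, ray_self hT hi, ray_kap hT hi, fun x hx => ray_curve hP hT hi hx⟩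
  | @tail b c _ h2 ih =>
    obtain ⟨j, hj, rfl⟩ := h2
    obtain ⟨h3, h4, h5, h6⟩ := ih
    refine ⟨isInt_refl j h3, by rw [dot_refl hj]; exact h4, by rw [kap_refl hj]; exact h5,
      fun x hx => ?_⟩
    have h7 := h6 _ (gen_refl hP hj hx)
    have h8 : dot b (refl j x) = dot (refl j b) x := by
      rw [← dot_refl hj, refl_refl]
    rw [h8, dot_refl hj, kap_refl hj] at h7
    exact h7

theorem orbit_nonneg {n : ℕ} {P : Fin n → Fin 2 → ℂ}
    (hP : AlgebraicIndependent ℚ (fun ij : Fin n × Fin 2 => P ij.1 ij.2)) {T : Finset (Fin n)}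
    (hT : T.card = 10) {i : Fin n} (hi : i ∈ T) {D : ℝ × (Fin n → ℝ)} (hD : Carries (ray T i) D)
    {x : ℝ × (Fin n → ℝ)} (hx : x ∈ curveClasses P) : 0 ≤ dot D x := by
  rcases (orbit_curve hP hT hi hD).2.2.2 x hx with h | ⟨h, -⟩
  · exact h.le
  · exact h.ge

theorem exc_dot {n : ℕ} (D : ℝ × (Fin n → ℝ)) (j : Fin n) :
    dot D ((0 : ℝ), (Pi.single j (-1 : ℝ) : Fin n → ℝ)) = D.2 j := by
  unfold dot
  simp only [mul_zero, zero_sub]
  rw [Finset.sum_eq_single j]
  · rw [Pi.single_eq_same]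
    ring
  · intro l _ hl
    rw [Pi.single_eq_of_ne hl, mul_zero]
  · intro h
    exact absurd (Finset.mem_univ j) h

theorem orbit_coeff {n : ℕ} {P : Fin n → Fin 2 → ℂ}
    (hP : AlgebraicIndependent ℚ (fun ij : Fin n × Fin 2 => P ij.1 ij.2)) {T : Finset (Fin n)}
    (hT : T.card = 10) {i : Fin n} (hi : i ∈ T) {D : ℝ × (Fin n → ℝ)} (hD : Carries (ray T i) D)
    (j : Fin n) : 0 ≤ D.2 j ∧ (n = 10 → 0 < D.2 j) := by
  have h1 := (orbit_curve hP hT hi hD).2.2.2 _ (Or.inr ⟨j, rfl⟩)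
  rw [exc_dot] at h1
  rcases h1 with h1 | ⟨h1, -, -, h2⟩
  · exact ⟨h1.le, fun _ => h1⟩
  · exact ⟨h1.ge, fun h3 => absurd h3 h2⟩

theorem orbit_deg {n : ℕ} {P : Fin n → Fin 2 → ℂ}
    (hP : AlgebraicIndependent ℚ (fun ij : Fin n × Fin 2 => P ij.1 ij.2)) {T : Finset (Fin n)}
    (hT : T.card = 10) {i : Fin n} (hi : i ∈ T) {D : ℝ × (Fin n → ℝ)} (hD : Carries (ray T i) D) :
    0 < D.1 := by
  -- the sum of the classes of a line and its points
  obtain ⟨h1, h2, h3, -⟩ := orbit_curve hP hT hi hD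
  -- `D.1 ^ 2 = ∑ D.2 ^ 2` and the line through two of the points gives `D.1 ≥ 0`
  have hT2 : 1 < T.card := by rw [hT]; norm_num
  obtain ⟨a, ha, b, hb, hab⟩ := Finset.one_lt_card.1 hT2
  have h4 := orbit_nonneg hP hT hi hD (x := ((1 : ℝ), fun l => if l = a ∨ l = b then 1 else 0))
    (line_mem hP hab rfl fun l => rfl)
  have h5 : 0 ≤ D.1 := by
    unfold dot at h4
    have h6 : 0 ≤ ∑ l, D.2 l * (if l = a ∨ l = b then (1 : ℝ) else 0) :=
      Finset.sum_nonneg fun l _ => mul_nonneg (orbit_coeff hP hT hi hD l).1 (by split_ifs <;> norm_num)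
    simp only [mul_one] at h4
    linarith
  rcases h5.eq_or_lt with h6 | h6
  · exfalso
    unfold dot at h2
    rw [← h6, zero_mul, zero_sub, neg_eq_zero,
      Finset.sum_eq_zero_iff_of_nonneg fun l _ => mul_self_nonneg _] at h2
    unfold kap at h3
    rw [← h6, Finset.sum_eq_zero fun l hl => mul_self_eq_zero.1 (h2 l hl)] at h3
    norm_num at h3
  · exact h6

theorem exists_ord {a : Fin 2 → ℂ} {F : MvPolynomial (Fin 3) ℂ} {e : ℕ} (hF0 : F ≠ 0)
    (hF : F.IsHomogeneous e) : ∃ u, Ord (aff a) u F := by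
  classical
  refine ⟨Nat.findGreatest (fun m => Van (aff a) m F) e,
    Nat.findGreatest_spec (m := 0) (P := fun m => Van (aff a) m F) (Nat.zero_le _)
      (van_zero _ _), fun h => ?_⟩
  have h1 := van_le hF0 hF h
  have h2 := Nat.le_findGreatest (P := fun m => Van (aff a) m F) h1 h
  omega

/-- A class `D` which is nonnegative on all curves is nonnegative on all forms. -/
theorem form_dot {n : ℕ} {P : Fin n → Fin 2 → ℂ} (D : ℝ × (Fin n → ℝ)) (hc : ∀ l, 0 ≤ D.2 l)
    (c : ℝ) (hcurve : ∀ (G : MvPolynomial (Fin 3) ℂ) (d : ℕ) (w : Fin n → ℕ),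
      SHDefs.Curve P G d w → c ≤ D.1 * d - ∑ l, D.2 l * w l) (hc0 : 0 ≤ c)
    (F : MvPolynomial (Fin 3) ℂ) : F ≠ 0 → ∀ (e : ℕ) (m : Fin n → ℕ), F.IsHomogeneous e →
      (∀ i, Van (aff (P i)) (m i) F) → 0 ≤ D.1 * e - ∑ l, D.2 l * m l ∧
        (0 < e → c ≤ D.1 * e - ∑ l, D.2 l * m l) := by
  classical
  refine WfDvdMonoid.induction_on_irreducible (motive := fun F => F ≠ 0 → ∀ (e : ℕ)
    (m : Fin n → ℕ), F.IsHomogeneous e →
    (∀ i, Van (aff (P i)) (m i) F) → 0 ≤ D.1 * e - ∑ l, D.2 l * m l ∧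
        (0 < e → c ≤ D.1 * e - ∑ l, D.2 l * m l)) F
    (fun h0 => absurd rfl h0) ?_ ?_
  · intro F hF hF0 e m hFe hm
    have he : e = 0 := by
      obtain ⟨g, hg⟩ := hF.exists_right_inv
      have hg0 : g ≠ 0 := by
        rintro rfl
        rw [mul_zero] at hg
        exact zero_ne_one hg
      have h3 := MvPolynomial.totalDegree_mul_of_isDomain hF0 hg0
      rw [hg, hFe.totalDegree hF0, MvPolynomial.totalDegree_one] at h3
      omega
    have h3 : ∀ i, m i = 0 := fun i => by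
      have := van_le hF0 hFe (hm i)
      omega
    rw [he]
    simp [h3]
  · intro F G hF0 hG ih hGF e m hFe hm
    have hGh := Pool.Agent.Chud.homog_of_dvd hFe hGF ⟨F, rfl⟩
    have hFh := Pool.Agent.Chud.homog_of_dvd hFe hGF ⟨G, mul_comm _ _⟩
    have hdeg : e = G.totalDegree + F.totalDegree := by
      rw [← MvPolynomial.totalDegree_mul_of_isDomain hG.ne_zero hF0, hFe.totalDegree hGF]
    choose u hu using fun i => exists_ord (a := P i) hG.ne_zero hGh
    have h3 := hcurve G _ u (curve_iff.2 ⟨hG, hGh, hu⟩)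
    have h4 := (ih hF0 _ (fun i => m i - u i) hFh fun i => by
      rcases le_total (u i) (m i) with h5 | h5
      · refine van_of_mul (hu i) ?_
        rw [Nat.add_sub_cancel' h5]
        exact hm i
      · rw [Nat.sub_eq_zero_of_le h5]
        exact van_zero _ _).1
    have h5 : ∑ i, D.2 i * (m i : ℝ) ≤
        ∑ i, (D.2 i * (u i : ℝ) + D.2 i * ((m i - u i : ℕ) : ℝ)) := by
      refine Finset.sum_le_sum fun i _ => ?_
      rw [← mul_add]
      refine mul_le_mul_of_nonneg_left ?_ (hc i)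
      have : m i ≤ u i + (m i - u i) := by omega
      exact_mod_cast this
    rw [Finset.sum_add_distrib] at h5
    have h6 : c ≤ D.1 * e - ∑ l, D.2 l * m l := by
      rw [hdeg]
      push_cast
      linarith
    exact ⟨hc0.trans h6, fun _ => h6⟩

/-- The orbit on all forms. -/
theorem orbit_form {n : ℕ} {P : Fin n → Fin 2 → ℂ}
    (hP : AlgebraicIndependent ℚ (fun ij : Fin n × Fin 2 => P ij.1 ij.2)) {T : Finset (Fin n)}
    (hT : T.card = 10) {i : Fin n} (hi : i ∈ T) {D : ℝ × (Fin n → ℝ)} (hD : Carries (ray T i) D)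
    {F : MvPolynomial (Fin 3) ℂ} (hF0 : F ≠ 0) {e : ℕ} (he : 0 < e) {m : Fin n → ℕ}
    (hF : F.IsHomogeneous e) (hm : ∀ l, F ∈ SHDefs.pt (P l) ^ m l) :
    ∑ l, D.2 l * m l ≤ D.1 * e ∧ (n = 10 ∨ D = ray T i → ∑ l, D.2 l * m l < D.1 * e) := by
  have hv : ∀ l, Van (aff (P l)) (m l) F := fun l =>
    (Pool.Agent.W609.CR.t_link ℂ (P l) (m l) F e hF).2 (hm l)
  refine ⟨?_, ?_⟩
  · have h1 := (form_dot (P := P) D (fun l => (orbit_coeff hP hT hi hD l).1) 0
      (fun G d w hG => orbit_nonneg hP hT hi hD (Or.inl ⟨G, d, w, hG, rfl⟩)) le_rfl F hF0 e m hF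
      hv).1
    linarith
  · rintro (h10 | rfl)
    · obtain ⟨⟨z, y, hz, hy⟩, -, -, h2⟩ := orbit_curve hP hT hi hD
      have h1 := (form_dot (P := P) D (fun l => (orbit_coeff hP hT hi hD l).1) 1
        (fun G d w hG => by
          have h3 := h2 _ (Or.inl ⟨G, d, w, hG, rfl⟩)
          rcases h3 with h3 | ⟨-, -, -, h3⟩
          · unfold dot at h3
            simp only at h3
            rw [hz, Finset.sum_congr rfl fun l _ => by rw [hy l]] at h3 ⊢
            have h4 : (0 : ℤ) < z * d - ∑ l, y l * w l := by exact_mod_cast h3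
            have h5 : (1 : ℤ) ≤ z * d - ∑ l, y l * w l := h4
            exact_mod_cast h5
          · exact absurd h10 h3) zero_le_one F hF0 e m hF hv).2 he
      linarith
    · have h1 := form_lt hP hT hi he hF hF0 (m := m) fun l _ => hm l
      rw [ray_sum hi]
      show 35 * ∑ l ∈ T, (m l : ℝ) + (m i : ℝ) < 111 * (e : ℝ)
      exact_mod_cast h1

end Pool.Agent.KS6_77.RR
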